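import Pool.Agent.H606.GU.Stm

set_option autoImplicit false

/-! Task COV of project GU (helper606): the covariance lower bound. -/

open MeasureTheory Filter Topology Finset
open Pool.Agent.H606.GU

namespace Pool.Agent.H170.GU.COV

/-- a bounded measurable function vanishing outside of a compact interval is integrable -/
theorem integrable_of_bdd {f : ℝ → ℝ} {u v B : ℝ} (hf : Measurable f) (hb : ∀ t, |f t| ≤ B)
    (h0 : ∀ t, t ∉ Set.Icc u v → f t = 0) : Integrable f := by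
  have h1 : IntegrableOn f (Set.Icc u v) := by
    refine Measure.integrableOn_of_bounded (M := B) ?_ hf.aestronglyMeasurable ?_
    · simp
    · exact ae_of_all _ (fun t => by simpa using hb t)
  rwa [integrableOn_iff_integrable_of_support_subset] at h1
  intro t ht
  by_contra h
  exact ht (h0 t h)

/-- linearity of the integral, five terms -/
theorem lin5 {μ : Measure ℝ} {f1 f2 f3 f4 f5 : ℝ → ℝ} (h1 : Integrable f1 μ) (h2 : Integrable f2 μ)
    (h3 : Integrable f3 μ) (h4 : Integrable f4 μ) (h5 : Integrable f5 μ) (c1 c2 c3 c4 c5 : ℝ) :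
    ∫ t, (c1 * f1 t + c2 * f2 t + c3 * f3 t + c4 * f4 t + c5 * f5 t) ∂μ =
      c1 * (∫ t, f1 t ∂μ) + c2 * (∫ t, f2 t ∂μ) + c3 * (∫ t, f3 t ∂μ) + c4 * (∫ t, f4 t ∂μ) +
      c5 * (∫ t, f5 t ∂μ) := by
  have g1 := h1.const_mul c1
  have g2 := h2.const_mul c2
  have g3 := h3.const_mul c3
  have g4 := h4.const_mul c4
  have g5 := h5.const_mul c5
  have k2 : Integrable (fun t => c1 * f1 t + c2 * f2 t) μ := g1.add g2
  have k3 : Integrable (fun t => c1 * f1 t + c2 * f2 t + c3 * f3 t) μ := k2.add g3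
  have k4 : Integrable (fun t => c1 * f1 t + c2 * f2 t + c3 * f3 t + c4 * f4 t) μ := k3.add g4
  rw [integral_add k4 g5, integral_add k3 g4, integral_add k2 g3, integral_add g1 g2]
  rw [integral_const_mul, integral_const_mul, integral_const_mul, integral_const_mul,
    integral_const_mul]

section basic

variable (hTC : S_TC) {N : ℕ} (x : Fin N → ℝ) (a : ℝ) (ha : 0 < a)

include hTC ha

theorem tc_meas (i : ℕ) : Measurable (fun t => tc x a i t) := by
  have h := (hTC N x a ha).2.2.2.2.1 i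
  have h2 : (fun t => tc x a i t) = fun t => ⌊(tc x a i t : ℝ)⌋₊ := by
    funext t
    rw [Nat.floor_natCast]
  rw [h2]
  exact Nat.measurable_floor.comp h

theorem df_meas (k i : ℕ) : Measurable (fun t => ((tc x a i t).descFactorial k : ℝ)) := by
  have h := tc_meas hTC x a ha i
  exact (measurable_from_nat (f := fun n : ℕ => ((n.descFactorial k : ℕ) : ℝ))).comp h

theorem FF_meas (k M : ℕ) : Measurable (fun t => FF x a k M t) := by
  unfold FF
  exact Finset.measurable_fun_sum _ (fun i _ => df_meas hTC x a ha k i)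

theorem NN_meas (M : ℕ) : Measurable (fun t => NN x a M t) := by
  unfold NN
  exact Finset.measurable_fun_sum _ (fun i _ => (hTC N x a ha).2.2.2.2.1 i)

theorem FF_bd (k M : ℕ) (t : ℝ) : |FF x a k M t| ≤ M * (N : ℝ) ^ k := by
  have h0 : 0 ≤ FF x a k M t := Finset.sum_nonneg (fun i _ => Nat.cast_nonneg _)
  rw [abs_of_nonneg h0]
  have h1 : FF x a k M t ≤ ∑ i ∈ range M, (N : ℝ) ^ k := by
    refine Finset.sum_le_sum (fun i _ => ?_)
    have h2 : (tc x a i t).descFactorial k ≤ N ^ k :=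
      (Nat.descFactorial_le_pow _ _).trans
        (Nat.pow_le_pow_left ((hTC N x a ha).2.2.2.2.2.2.1 i t) k)
    exact_mod_cast h2
  simpa using h1

theorem NN_bd (M : ℕ) (t : ℝ) : |NN x a M t| ≤ M * (N : ℝ) := by
  have h0 : 0 ≤ NN x a M t := Finset.sum_nonneg (fun i _ => Nat.cast_nonneg _)
  rw [abs_of_nonneg h0]
  have h1 : NN x a M t ≤ ∑ i ∈ range M, (N : ℝ) := by
    refine Finset.sum_le_sum (fun i _ => ?_)
    exact_mod_cast (hTC N x a ha).2.2.2.2.2.2.1 i t
  simpa using h1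

theorem FF_zero {R : ℝ} (hx : ∀ j, 0 ≤ x j ∧ x j ≤ R) {k : ℕ} (hk : 1 ≤ k) (M : ℕ) (t : ℝ)
    (ht : t ∉ Set.Icc (-((M : ℝ) * a)) R) : FF x a k M t = 0 := by
  unfold FF
  refine Finset.sum_eq_zero (fun i hi => ?_)
  rw [(hTC N x a ha).2.2.2.2.2.1 M R hx i (Finset.mem_range.1 hi) t ht]
  obtain ⟨k', rfl⟩ : ∃ k', k = k' + 1 := ⟨k - 1, by omega⟩
  rw [Nat.zero_descFactorial_succ]
  simp

theorem NN_zero {R : ℝ} (hx : ∀ j, 0 ≤ x j ∧ x j ≤ R) (M : ℕ) (t : ℝ)
    (ht : t ∉ Set.Icc (-((M : ℝ) * a)) R) : NN x a M t = 0 := by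
  unfold NN
  refine Finset.sum_eq_zero (fun i hi => ?_)
  rw [(hTC N x a ha).2.2.2.2.2.1 M R hx i (Finset.mem_range.1 hi) t ht]
  simp

theorem FF_int {R : ℝ} (hx : ∀ j, 0 ≤ x j ∧ x j ≤ R) {k : ℕ} (hk : 1 ≤ k) (M : ℕ) :
    Integrable (fun t => FF x a k M t) :=
  integrable_of_bdd (FF_meas hTC x a ha k M) (FF_bd hTC x a ha k M) (FF_zero hTC x a ha hx hk M)

theorem NN_int {R : ℝ} (hx : ∀ j, 0 ≤ x j ∧ x j ≤ R) (M : ℕ) :
    Integrable (fun t => NN x a M t) :=
  integrable_of_bdd (NN_meas hTC x a ha M) (NN_bd hTC x a ha M) (NN_zero hTC x a ha hx M)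

theorem FF2_int {R : ℝ} (hx : ∀ j, 0 ≤ x j ∧ x j ≤ R) {k : ℕ} (hk : 1 ≤ k) (M : ℕ) :
    Integrable (fun t => FF x a k M t ^ 2) := by
  refine integrable_of_bdd (B := (M * (N : ℝ) ^ k) ^ 2) ((FF_meas hTC x a ha k M).pow_const 2) ?_
    (fun t ht => by rw [FF_zero hTC x a ha hx hk M t ht]; simp)
  intro t
  rw [abs_pow]
  exact pow_le_pow_left₀ (abs_nonneg _) (FF_bd hTC x a ha k M t) 2

theorem NN2_int {R : ℝ} (hx : ∀ j, 0 ≤ x j ∧ x j ≤ R) (M : ℕ) :
    Integrable (fun t => NN x a M t ^ 2) := by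
  refine integrable_of_bdd (B := (M * (N : ℝ)) ^ 2) ((NN_meas hTC x a ha M).pow_const 2) ?_
    (fun t ht => by rw [NN_zero hTC x a ha hx M t ht]; simp)
  intro t
  rw [abs_pow]
  exact pow_le_pow_left₀ (abs_nonneg _) (NN_bd hTC x a ha M t) 2

theorem FN_int {R : ℝ} (hx : ∀ j, 0 ≤ x j ∧ x j ≤ R) {k : ℕ} (hk : 1 ≤ k) (M : ℕ) :
    Integrable (fun t => FF x a k M t * NN x a M t) := by
  refine integrable_of_bdd (B := (M * (N : ℝ) ^ k) * (M * (N : ℝ)))
    ((FF_meas hTC x a ha k M).mul (NN_meas hTC x a ha M)) ?_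
    (fun t ht => by rw [NN_zero hTC x a ha hx M t ht]; simp)
  intro t
  rw [abs_mul]
  exact mul_le_mul (FF_bd hTC x a ha k M t) (NN_bd hTC x a ha M t) (abs_nonneg _) (by positivity)

theorem df_int {R : ℝ} (hx : ∀ j, 0 ≤ x j ∧ x j ≤ R) {k : ℕ} (hk : 1 ≤ k) (i : ℕ) :
    Integrable (fun t => ((tc x a i t).descFactorial k : ℝ)) := by
  refine integrable_of_bdd (u := -(((i + 1 : ℕ) : ℝ) * a)) (v := R) (B := (N : ℝ) ^ k)
    (df_meas hTC x a ha k i) ?_ ?_
  · intro t
    rw [abs_of_nonneg (Nat.cast_nonneg _)]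
    have h2 : (tc x a i t).descFactorial k ≤ N ^ k :=
      (Nat.descFactorial_le_pow _ _).trans
        (Nat.pow_le_pow_left ((hTC N x a ha).2.2.2.2.2.2.1 i t) k)
    exact_mod_cast h2
  · intro t ht
    rw [(hTC N x a ha).2.2.2.2.2.1 (i + 1) R hx i (Nat.lt_succ_self i) t ht]
    obtain ⟨k', rfl⟩ : ∃ k', k = k' + 1 := ⟨k - 1, by omega⟩
    rw [Nat.zero_descFactorial_succ]
    simp

theorem int_FF {R : ℝ} (hR : 0 < R) (hx : ∀ j, 0 ≤ x j ∧ x j ≤ R) {k : ℕ} (hk : 1 ≤ k) (M : ℕ) :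
    ∫ t : ℝ, FF x a k M t = M * (R * Av x R (tile k a 0)) := by
  have h1 : ∀ i, ∫ t : ℝ, ((tc x a i t).descFactorial k : ℝ) = R * Av x R (tile k a 0) := by
    intro i
    have h2 : (fun t => ((tc x a i t).descFactorial k : ℝ)) =
        fun t => ((tc x a 0 (t + i * a)).descFactorial k : ℝ) := by
      funext t
      rw [(hTC N x a ha).2.2.2.1 i t]
    rw [h2, integral_add_right_eq_self (fun t => ((tc x a 0 t).descFactorial k : ℝ))]
    unfold Av
    rw [mul_div_cancel₀ _ hR.ne']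
    congr 1
    funext t
    rw [(hTC N x a ha).1 k 0 t]
  unfold FF
  rw [integral_finsetSum _ (fun i _ => df_int hTC x a ha hx hk i)]
  rw [Finset.sum_congr rfl (fun i _ => h1 i)]
  simp

theorem int_NN {R : ℝ} (hx : ∀ j, 0 ≤ x j ∧ x j ≤ R) (M : ℕ) :
    ∫ t : ℝ, NN x a M t = M * (N * a) := by
  unfold NN
  have h0 : ∀ i, Integrable (fun t => (tc x a i t : ℝ)) := by
    intro i
    have h := df_int hTC x a ha hx (le_refl 1) i
    simpa using h
  rw [integral_finsetSum _ (fun i _ => h0 i)]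
  rw [Finset.sum_congr rfl (fun i _ => (hTC N x a ha).2.2.2.2.2.2.2.1 i)]
  simp

/-- the integral inequality for one configuration -/
theorem key {R : ℝ} (hR : 0 < R) (hx : ∀ j, 0 ≤ x j ∧ x j ≤ R) {k : ℕ} (hk : 1 ≤ k) (M : ℕ)
    (mu L lam : ℝ) (hlam : 0 < lam) :
    -(lam / 2) * (∫ t in Set.Icc (-((M : ℝ) * a)) R, (NN x a M t - L) ^ 2)
      - (1 / (2 * lam)) * ((∫ t : ℝ, FF x a k M t ^ 2) - 2 * mu * (∫ t : ℝ, FF x a k M t)
        + mu ^ 2 * (R + M * a))
      + L * (∫ t : ℝ, FF x a k M t) + mu * ((∫ t : ℝ, NN x a M t) - L * (R + M * a)) ≤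
    ∫ t : ℝ, FF x a k M t * NN x a M t := by
  have hMa : 0 ≤ (M : ℝ) * a := by positivity
  set I : Set ℝ := Set.Icc (-((M : ℝ) * a)) R with hI
  have e1 : ∫ t : ℝ, FF x a k M t * NN x a M t = ∫ t in I, FF x a k M t * NN x a M t :=
    (setIntegral_eq_integral_of_forall_compl_eq_zero (fun t ht => by
      rw [NN_zero hTC x a ha hx M t ht]; simp)).symm
  have e2 : ∫ t : ℝ, FF x a k M t ^ 2 = ∫ t in I, FF x a k M t ^ 2 :=
    (setIntegral_eq_integral_of_forall_compl_eq_zero (fun t ht => by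
      rw [FF_zero hTC x a ha hx hk M t ht]; simp)).symm
  have e3 : ∫ t : ℝ, FF x a k M t = ∫ t in I, FF x a k M t :=
    (setIntegral_eq_integral_of_forall_compl_eq_zero (fun t ht => by
      rw [FF_zero hTC x a ha hx hk M t ht])).symm
  have e4 : ∫ t : ℝ, NN x a M t = ∫ t in I, NN x a M t :=
    (setIntegral_eq_integral_of_forall_compl_eq_zero (fun t ht => by
      rw [NN_zero hTC x a ha hx M t ht])).symm
  have i1 : IntegrableOn (fun t => FF x a k M t * NN x a M t) I := (FN_int hTC x a ha hx hk M).integrableOn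
  have i2 : IntegrableOn (fun t => FF x a k M t ^ 2) I := (FF2_int hTC x a ha hx hk M).integrableOn
  have i3 : IntegrableOn (fun t => FF x a k M t) I := (FF_int hTC x a ha hx hk M).integrableOn
  have i4 : IntegrableOn (fun t => NN x a M t) I := (NN_int hTC x a ha hx M).integrableOn
  have i5 : IntegrableOn (fun t => NN x a M t ^ 2) I := (NN2_int hTC x a ha hx M).integrableOn
  have ic : ∀ c : ℝ, IntegrableOn (fun _ : ℝ => c) I := fun c =>
    continuous_const.integrableOn_Icc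
  have i6 : IntegrableOn (fun t => (NN x a M t - L) ^ 2) I := by
    have h : (fun t => (NN x a M t - L) ^ 2) =
        fun t => NN x a M t ^ 2 - (2 * L) * NN x a M t + L ^ 2 := by
      funext t; ring
    rw [h]
    exact (i5.sub (i4.const_mul _)).add (ic _)
  have hvol : ∫ t in I, (1 : ℝ) = R + M * a := by
    rw [hI]
    rw [setIntegral_const]
    rw [Real.volume_real_Icc_of_le (by linarith)]
    simp
  have hlow : ∫ t in I, (-(lam / 2) * (NN x a M t - L) ^ 2
      - (1 / (2 * lam)) * (FF x a k M t ^ 2 - 2 * mu * FF x a k M t + mu ^ 2 * 1)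
      + L * FF x a k M t + mu * (NN x a M t - L * 1)) ≤ ∫ t in I, FF x a k M t * NN x a M t := by
    refine setIntegral_mono_on ?_ i1 measurableSet_Icc ?_
    · exact (((i6.const_mul _).sub (((i2.sub (i3.const_mul _)).add ((ic 1).const_mul _)).const_mul _)).add
        (i3.const_mul _)).add ((i4.sub ((ic 1).const_mul _)).const_mul _)
    · intro t _
      have h1 : 0 ≤ (lam * (NN x a M t - L) + (FF x a k M t - mu)) ^ 2 / (2 * lam) := by positivity
      have h2 : (lam * (NN x a M t - L) + (FF x a k M t - mu)) ^ 2 / (2 * lam) =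
          (lam / 2) * (NN x a M t - L) ^ 2 + (NN x a M t - L) * (FF x a k M t - mu) +
          (1 / (2 * lam)) * (FF x a k M t - mu) ^ 2 := by
        field_simp
        ring
      rw [h2] at h1
      nlinarith [h1]
  have hsplit : ∫ t in I, (-(lam / 2) * (NN x a M t - L) ^ 2
      - (1 / (2 * lam)) * (FF x a k M t ^ 2 - 2 * mu * FF x a k M t + mu ^ 2 * 1)
      + L * FF x a k M t + mu * (NN x a M t - L * 1)) =
      -(lam / 2) * (∫ t in I, (NN x a M t - L) ^ 2)
      - (1 / (2 * lam)) * ((∫ t in I, FF x a k M t ^ 2) - 2 * mu * (∫ t in I, FF x a k M t)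
        + mu ^ 2 * (R + M * a))
      + L * (∫ t in I, FF x a k M t) + mu * ((∫ t in I, NN x a M t) - L * (R + M * a)) := by
    have hl := lin5 i6 i2 i3 i4 (ic 1) (-(lam / 2)) (-(1 / (2 * lam)))
      ((1 / (2 * lam)) * (2 * mu) + L) mu (-((1 / (2 * lam)) * mu ^ 2) - mu * L)
    rw [hvol] at hl
    calc ∫ t in I, (-(lam / 2) * (NN x a M t - L) ^ 2
      - (1 / (2 * lam)) * (FF x a k M t ^ 2 - 2 * mu * FF x a k M t + mu ^ 2 * 1)
      + L * FF x a k M t + mu * (NN x a M t - L * 1)) = _ := by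
          refine integral_congr_ae (ae_of_all _ fun t => ?_)
          show _ = -(lam / 2) * (NN x a M t - L) ^ 2 + -(1 / (2 * lam)) * FF x a k M t ^ 2 +
            ((1 / (2 * lam)) * (2 * mu) + L) * FF x a k M t + mu * NN x a M t +
            (-((1 / (2 * lam)) * mu ^ 2) - mu * L) * 1
          ring
      _ = _ := hl
      _ = _ := by ring
  rw [e1, e2, e3, e4, ← hsplit]
  exact hlow

end basic

theorem t_COV (_hAV : S_AV) (hTC : S_TC) (hINT : S_INT) (_hUPC : S_UPC) (_hSETS : S_SETS) :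
    S_COV := by
  intro C k a hk ha _hUp hVN hVF hLow η hη
  obtain ⟨D, hD, hVF⟩ := hVF
  obtain ⟨hm0, _⟩ := (hINT k a hk ha).1
  set m : ℝ := mm k a with hm
  set lam : ℝ := 2 * (D + 1) / η with hlam
  have hlam0 : 0 < lam := by positivity
  obtain ⟨M0, hM0⟩ := hVN (η / (2 * lam)) (by positivity)
  refine ⟨max M0 1, fun M hM => ?_⟩
  have hM1 : 1 ≤ M := le_trans (le_max_right _ _) hM
  have hMr : (1 : ℝ) ≤ M := by exact_mod_cast hM1
  have hMpos : (0 : ℝ) < M := by linarith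
  -- the small quantities
  set mu : ℝ := M * m with hmu
  have hmu0 : 0 ≤ mu := by positivity
  set ε : ℝ := min (1 / (4 * (mu + 1))) (η / (8 * (M * a))) with hε
  have hε0 : 0 < ε := by
    rw [hε]
    exact lt_min (by positivity) (by positivity)
  have hε1 : 2 * mu * ε ≤ 1 / 2 := by
    have h1 : ε ≤ 1 / (4 * (mu + 1)) := min_le_left _ _
    have h2 : 2 * mu * ε ≤ 2 * mu * (1 / (4 * (mu + 1))) := by gcongr
    have h3 : 2 * mu * (1 / (4 * (mu + 1))) ≤ 1 / 2 := by
      rw [mul_one_div, div_le_iff₀ (by positivity)]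
      linarith
    linarith
  have hε2 : M * a * ε ≤ η / 8 := by
    have h1 : ε ≤ η / (8 * (M * a)) := min_le_right _ _
    have h2 : M * a * ε ≤ M * a * (η / (8 * (M * a))) := by gcongr
    have h3 : M * a * (η / (8 * (M * a))) = η / 8 := by
      field_simp
    linarith
  have hRinv : Tendsto (fun T => (C.R T)⁻¹) atTop (𝓝 0) := C.hR.inv_tendsto_atTop
  -- mu² a / R ≤ 1/2 eventually
  have ev1 : ∀ᶠ T in atTop, mu ^ 2 * a * (C.R T)⁻¹ < 1 / 2 := by
    have h := hRinv.const_mul (mu ^ 2 * a)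
    rw [mul_zero] at h
    exact h.eventually_lt_const (by norm_num)
  have ev2 : ∀ᶠ T in atTop, mu * a * (1 - (C.N T : ℝ) / C.R T + M * a * (C.R T)⁻¹) < η / 4 := by
    have h := ((tendsto_const_nhds (x := (1 : ℝ))).sub C.hN).add (hRinv.const_mul (M * a))
    have h' := h.const_mul (mu * a)
    have h0 : mu * a * (1 - 1 + M * a * 0) = 0 := by ring
    rw [h0] at h'
    exact h'.eventually_lt_const (by positivity)
  filter_upwards [C.hR.eventually_gt_atTop 0, hM0 M (le_trans (le_max_left _ _) hM), hVF M hM1,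
    hLow ε hε0, ev1, ev2] with T hR0 hN2 hF2 hA h1 h2
  have hkey := key hTC (C.x T) a ha hR0 (C.hx T) hk M mu (M * a) lam hlam0
  rw [int_FF hTC (C.x T) a ha hR0 (C.hx T) hk M, int_NN hTC (C.x T) a ha (C.hx T) M] at hkey
  set R : ℝ := C.R T with hRdef
  set A : ℝ := Av (C.x T) R (tile k a 0) with hAdef
  set VN' : ℝ := ∫ t in Set.Icc (-((M : ℝ) * a)) R, (NN (C.x T) a M t - M * a) ^ 2 with hVN'
  set VF' : ℝ := ∫ t : ℝ, FF (C.x T) a k M t ^ 2 with hVF'
  set J : ℝ := ∫ t : ℝ, FF (C.x T) a k M t * NN (C.x T) a M t with hJ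
  rw [div_le_iff₀ hR0] at hN2 hF2
  rw [le_div_iff₀ hR0]
  refine le_trans ?_ hkey
  -- multiply the small quantities by R
  have h1' : mu ^ 2 * a ≤ R / 2 := by
    have h := mul_lt_mul_of_pos_right h1 hR0
    rw [mul_assoc, inv_mul_cancel₀ hR0.ne'] at h
    linarith
  have h2' : mu * a * (R - (C.N T : ℝ) + M * a) ≤ η / 4 * R := by
    have h := mul_lt_mul_of_pos_right h2 hR0
    have h3 : mu * a * (1 - (C.N T : ℝ) / R + M * a * R⁻¹) * R =
        mu * a * (R - (C.N T : ℝ) + M * a) := by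
      field_simp
    rw [h3] at h
    exact h.le
  -- the variance of F
  have hVFb : VF' - 2 * mu * (M * (R * A)) + mu ^ 2 * (R + M * a) ≤ (D + 1) * M * R := by
    have h3 : 2 * mu * (M * (R * (m - ε))) ≤ 2 * mu * (M * (R * A)) := by gcongr
    have h4 : 2 * mu * (M * (R * (m - ε))) = 2 * mu ^ 2 * R - (2 * mu * ε) * (M * R) := by
      rw [hmu]; ring
    have h5 : (2 * mu * ε) * (M * R) ≤ 1 / 2 * (M * R) := by gcongr
    have h6 : mu ^ 2 * (M * a) ≤ (R / 2) * M := by
      have := mul_le_mul_of_nonneg_right h1' hMpos.le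
      linarith
    nlinarith [h3, h4, h5, h6, hF2]
  have hT1 : (1 / (2 * lam)) * (VF' - 2 * mu * (M * (R * A)) + mu ^ 2 * (R + M * a)) ≤
      η / 4 * M * R := by
    have h3 : (1 / (2 * lam)) * (VF' - 2 * mu * (M * (R * A)) + mu ^ 2 * (R + M * a)) ≤
        (1 / (2 * lam)) * ((D + 1) * M * R) := by gcongr
    have h4 : (1 / (2 * lam)) * ((D + 1) * M * R) = η / 4 * M * R := by
      rw [hlam]
      field_simp
      ring
    linarith
  have hT2 : (lam / 2) * VN' ≤ η / 4 * M * R := by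
    have h3 : (lam / 2) * VN' ≤ (lam / 2) * (η / (2 * lam) * M * R) := by gcongr
    have h4 : (lam / 2) * (η / (2 * lam) * M * R) = η / 4 * M * R := by
      field_simp
      ring
    linarith
  have hT3 : (M : ℝ) ^ 2 * a * m * R - η / 8 * M * R ≤ M * a * (M * (R * A)) := by
    have h3 : M * a * (M * (R * (m - ε))) ≤ M * a * (M * (R * A)) := by gcongr
    have h4 : M * a * (M * (R * (m - ε))) = (M : ℝ) ^ 2 * a * m * R - (M * a * ε) * (M * R) := by ring
    have h5 : (M * a * ε) * (M * R) ≤ η / 8 * (M * R) := by gcongr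
    linarith
  have hT4 : -(η / 4 * M * R) ≤ mu * (M * (C.N T * a) - M * a * (R + M * a)) := by
    have h3 := mul_le_mul_of_nonneg_left h2' hMpos.le
    nlinarith [h3]
  nlinarith [hT1, hT2, hT3, hT4, mul_pos (mul_pos hη hMpos) hR0]

end Pool.Agent.H170.GU.COV
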